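import Pool.Agent.H373.BU.B2

/-!
# Brauer's `k(B)` conjecture and the groups `M_n(Z/q) ⋊ A_n`

Let `k` be an algebraically closed field of characteristic `p`, and `q > 1` prime to `p`. The groups
`X_n = M_n(Z/q) ⋊ A_n` (the alternating group acts on the additive group of the `n × n` matrices over
`Z/q` by conjugation with permutation matrices) are universal for the `k(B)` conjecture in
characteristic `p`: every pair (defect group, `k(B)`) of a block of a finite group `G` is the pair of
a block of `X_n`, for every `n ≥ |G| ^ 2 + 3 |G|`.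
-/

set_option autoImplicit false

open Pool.Agent.H373.BU

theorem Pool.Agent.Results.MP_a15589_al.MatrixExtensions.result
    (p : ℕ) [Fact p.Prime] (k : Type) [Field k] [IsAlgClosed k] [CharP k p]
    (q : ℕ) (hq : 1 < q) (hpq : q.Coprime p) :
    (∀ (P : Type) [Group P] (m : ℕ) (G : Type) [Group G] [Finite G], Att k P m G →
      ∀ n, Nat.card G ^ 2 + 3 * Nat.card G ≤ n → Att k P m (UG n q)) ∧
    ∀ S : Set ℕ, S.Infinite →
      ((∀ (G : Type) [Group G] [Finite G], KB k G) ↔ ∀ n ∈ S, KB k (UG n q)) :=
  kB_main p k q hq hpq
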