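import Pool.Agent.H378.RS.Kb

/-!
# Brauer's `k(B)` conjecture: one residue class of `k(B)` decides

Blocks are given by their sets of irreducible characters and a valuation ring `O` of `ℂ` containing
`p` in its maximal ideal; `IsBlock` and `IsDefectGroup` are from `Pool.Agent.H254R3.IN.Defs`. For a
block `B` of `G` with defect group `D` the number `k(B)` is the number of elements of `B`.

The theorem is on the bounds `k(B) ≤ |D| ^ α`, for any real number `α`; Brauer's conjecture is `α = 1`,
and `α = 2` is the bound of Brauer and Feit.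

Proof. Let `k(B) > |D| ^ α`, `D ≠ 1`, and write `k = k(B)`, `t = |D| ^ α`. The block of `G ≀ C_q` above
`B ⊗ ⋯ ⊗ B`, for a prime number `q ≠ p`, has the numbers `k' = (k ^ q + (q² - 1) k) / q` and
`t' = t ^ q` (its defect group is `D ^ q`), and `B ⊗ ⋯ ⊗ B` has the powers. After passing to a power,
`k ≥ 2 t`, and this inequality is inherited by the wreath products. The map `k ↦ k'` lowers the
`q`-adic valuation of `k` by one if `k` is divisible by `q`, so we may assume that `k` is prime to `q`.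
Let `n ≡ 1` modulo `q - 1` be a multiple of `q ^ a`, so that `k ^ n` is modulo `q ^ (a + 1)` the
Teichmüller representative of `k`. For prime numbers `s ≡ 1` modulo `q - 1`, `s ≠ p`, the wreath product
with `C_s` multiplies it by `s` modulo `q ^ (a + 1)`, so by Dirichlet's theorem all multiples of it by
numbers `≡ 1` modulo `q` are reached; and the step with `C_q` then leads to all residues modulo `q ^ a`,
by Hensel's lemma. In all these steps `k / t` grows like a power of the order of the group, and the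
scales are dense. Galois-stable blocks suffice since the block of `G ≀ A` formed from the Galois
conjugates of `B`, `A` the (abelian) group which permutes them regularly, is Galois-stable and has the
numbers `k ^ |A|`, `t ^ |A|` (this is in the library).
-/

set_option autoImplicit false

open scoped Classical

noncomputable section

namespace Pool.Agent.Results.MP_a15589_al.OneResidueClass

open Pool.Agent.H254R3.IN (IsBlock IsDefectGroup)

/-- the block `B` is stable under all automorphisms of `ℂ` -/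
def IsRational {G : Type} (B : Set (G → ℂ)) : Prop :=
  ∀ s : ℂ ≃+* ℂ, ∀ χ ∈ B, (fun g => s (χ g)) ∈ B

/-- the regular wreath product of `G` with `A` -/
abbrev RegularWreath (G A : Type) [Group G] [Group A] : Type :=
  (A → G) ⋊[mulAutArrow (G := A) (A := A) (M := G)] A

/-- `X` is a class of groups closed under isomorphism and direct products of two groups, and `Y` is a
class of finite groups closed under direct products and regular wreath products with finite abelian
groups -/
structure Closed (X Y : ∀ (P : Type) [Group P], Prop) : Prop where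
  iso : ∀ (P Q : Type) [Group P] [Group Q], Nonempty (P ≃* Q) → X P → X Q
  prod : ∀ (P Q : Type) [Group P] [Group Q], X P → X Q → X (P × Q)
  prod' : ∀ (G H : Type) [Group G] [Finite G] [Group H] [Finite H], Y G → Y H → Y (G × H)
  wreath : ∀ (G : Type) [Group G] [Finite G] (A : Type) [CommGroup A] [Finite A], Y G →
    Y (RegularWreath G A)

/-- `k(B) ≤ |D| ^ α` for all blocks `B` with defect group `D` in `X` of the groups in `Y`. -/
def Bound (p : ℕ) (O : ValuationSubring ℂ) (X Y : ∀ (P : Type) [Group P], Prop) (α : ℝ) : Prop :=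
  ∀ (G : Type) [Group G] [Finite G], Y G → ∀ (B : Set (G → ℂ)) (D : Subgroup G),
    IsBlock O B → IsDefectGroup p O B D → X D → (B.ncard : ℝ) ≤ (Nat.card D : ℝ) ^ α

/-- `P |G| k(B) |D|` for all Galois-stable blocks `B` with defect group `D` in `X` of the groups `G` in
`Y`. -/
def ForAll (p : ℕ) (O : ValuationSubring ℂ) (X Y : ∀ (P : Type) [Group P], Prop)
    (P : ℕ → ℕ → ℕ → Prop) : Prop :=
  ∀ (G : Type) [Group G] [Finite G], Y G → ∀ (B : Set (G → ℂ)) (D : Subgroup G),
    IsBlock O B → IsDefectGroup p O B D → X D → IsRational B →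
    P (Nat.card G) B.ncard (Nat.card D)

/-- `P |G| k(B) |D|` for some Galois-stable block `B` with defect group `D` in `X` of some group `G` in
`Y`. -/
def ForSome (p : ℕ) (O : ValuationSubring ℂ) (X Y : ∀ (P : Type) [Group P], Prop)
    (P : ℕ → ℕ → ℕ → Prop) : Prop :=
  ∃ (G : Type) (_ : Group G) (_ : Finite G) (B : Set (G → ℂ)) (D : Subgroup G), Y G ∧
    IsBlock O B ∧ IsDefectGroup p O B D ∧ X D ∧ IsRational B ∧
    P (Nat.card G) B.ncard (Nat.card D)

theorem gst' {G : Type} {B : Set (G → ℂ)} (h : Pool.Agent.Q17.RB.Gst B) : IsRational B :=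
  fun s χ hχ => (h s χ).mp hχ

theorem gst {G : Type} [Group G] [Fintype G] {B : Set (G → ℂ)} (h : IsRational B) :
    Pool.Agent.Q17.RB.Gst B :=
  Pool.Agent.Q17.AM.gst_of fun t χ hχ => h t χ hχ

theorem Closed.pow {X Y : ∀ (P : Type) [Group P], Prop} (h : Closed X Y) (P : Type) [Group P]
    (n : ℕ) (hn : 1 ≤ n) (hP : X P) : X (Fin n → P) := by
  induction n, hn using Nat.le_induction with
  | base => exact h.iso _ _ ⟨(MulEquiv.funUnique (Fin 1) P).symm⟩ hP
  | succ n _ ih =>
      refine h.iso _ _ ⟨?_⟩ (h.prod _ _ hP ih)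
      exact
        { toFun := fun x => Fin.cons x.1 x.2
          invFun := fun f => (f 0, Fin.tail f)
          left_inv := fun x => by
            refine Prod.ext ?_ ?_
            · change (Fin.cons x.1 x.2 : Fin (n + 1) → P) 0 = x.1
              rw [Fin.cons_zero]
            · change Fin.tail (Fin.cons x.1 x.2 : Fin (n + 1) → P) = x.2
              rw [Fin.tail_cons]
          right_inv := fun f => Fin.cons_self_tail f
          map_mul' := fun x y => by
            funext i
            refine Fin.cases ?_ (fun j => ?_) i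
            · rfl
            · rfl }

theorem modEq_iff {q a : ℕ} {s r : ℤ} : s ≡ r [ZMOD (q ^ a : ℕ)] ↔ (q : ℤ) ^ a ∣ s - r := by
  rw [Int.modEq_comm, Int.modEq_iff_dvd]
  push_cast
  exact Iff.rfl

variable {p : ℕ} {O : ValuationSubring ℂ} {X Y : ∀ (P : Type) [Group P], Prop}

theorem bound_iff {α : ℝ} : Bound p O X Y α ↔
    Pool.Agent.H378.RS.AllK p O (fun G _ _ D => (Finite G → Y G) ∧ X D)
      (fun _ k d => (k : ℝ) ≤ (d : ℝ) ^ α) := by
  constructor
  · intro h G _ _ D B hB hD hG
    exact h G (hG.1 inferInstance) B D hB hD hG.2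
  · intro h G _ _ hG B D h1 h2 h3
    have hF : Fintype G := Fintype.ofFinite G
    exact h G D B h1 h2 ⟨fun _ => hG, h3⟩

theorem forAll_iff {P : ℕ → ℕ → ℕ → Prop} : ForAll p O X Y P ↔
    Pool.Agent.H378.RS.AllK p O (Pool.Agent.H378.RS.GC X Y) P := by
  constructor
  · intro h G _ _ D B hB hD hG
    exact h G (hG.2.1 inferInstance) B D hB hD hG.2.2 (gst' hG.1)
  · intro h G _ _ hG B D h1 h2 h3 h4
    have hF : Fintype G := Fintype.ofFinite G
    exact h G D B h1 h2 ⟨gst h4, fun _ => hG, h3⟩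

/-- **Brauer's `k(B)` conjecture: one residue class of `k(B)` modulo a prime power decides.** Let
`p ≠ q` be prime numbers, let `X` be a class of groups closed under isomorphism and direct products, and
let `Y` be a class of finite groups closed under direct products and regular wreath products with finite
abelian groups (for instance: all groups and all finite groups; or the abelian groups and all finite
groups). Let `a`, `n₀` be natural numbers, `r` an integer and `α` a real number. We consider the blocks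
`B` with defect group `D` in `X` of the groups `G` in `Y`.
(1) `k(B) ≤ |D| ^ α` for all these blocks if and only if for every `ε > 0` there are arbitrarily large
`x` such that `k(B) ≤ x ^ ε |D| ^ α` for those of these blocks which are Galois-stable with `k(B) ≡ r`
modulo `q ^ a` and `n₀ ≤ |G| ≤ x`.
(2) `k(B) ≤ |D| ^ α` for all these blocks if and only if this holds for the Galois-stable ones with
`k(B) ≡ r` modulo `q ^ a` and `|G| ≥ n₀`.
(3) If `k(B) > |D| ^ α` for one of these blocks, then there is a `δ > 0` such that for all large `x` and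
all integers `s` there is a Galois-stable block with `n₀ ≤ |G| ≤ x`, `k(B) ≡ s` modulo `q ^ a` and
`k(B) ≥ x ^ δ |D| ^ α`.
For `α = 1` the bound for all blocks is Brauer's conjecture (4). -/
theorem result (p : ℕ) [Fact p.Prime] (O : ValuationSubring ℂ) (hO : (p : ℂ) ∈ O.nonunits)
    (X Y : ∀ (P : Type) [Group P], Prop) (hXY : Closed X Y) (q : ℕ) (hq : q.Prime) (hqp : q ≠ p)
    (a n₀ : ℕ) (r : ℤ) (α : ℝ) :
    (Bound p O X Y α ↔ ∀ ε : ℝ, 0 < ε → ∀ x₀ : ℝ, ∃ x : ℝ, x₀ ≤ x ∧
      ForAll p O X Y (fun g k d => n₀ ≤ g → (g : ℝ) ≤ x → (k : ℤ) ≡ r [ZMOD (q ^ a : ℕ)] →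
        (k : ℝ) ≤ x ^ ε * (d : ℝ) ^ α)) ∧
    (Bound p O X Y α ↔
      ForAll p O X Y (fun g k d => n₀ ≤ g → (k : ℤ) ≡ r [ZMOD (q ^ a : ℕ)] →
        (k : ℝ) ≤ (d : ℝ) ^ α)) ∧
    (¬ Bound p O X Y α → ∃ δ : ℝ, 0 < δ ∧ ∃ x₀ : ℝ, ∀ x : ℝ, x₀ ≤ x → ∀ s : ℤ,
      ForSome p O X Y (fun g k d => n₀ ≤ g ∧ (g : ℝ) ≤ x ∧ (k : ℤ) ≡ s [ZMOD (q ^ a : ℕ)] ∧
        x ^ δ * (d : ℝ) ^ α ≤ k)) ∧
    (Bound p O X Y 1 ↔ ∀ (G : Type) [Group G] [Finite G], Y G → ∀ (B : Set (G → ℂ))
      (D : Subgroup G), IsBlock O B → IsDefectGroup p O B D → X D → B.ncard ≤ Nat.card D) := by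
  have hX : Pool.Agent.Q17.AM.Cl X := ⟨hXY.iso, fun P _ n hn h => hXY.pow P n hn h⟩
  have hC : Pool.Agent.H378.RS.ClB p O (Pool.Agent.H378.RS.GC X Y) :=
    Pool.Agent.H378.RS.gc_cl hX hXY.prod hXY.wreath hXY.prod'
  have hred := Pool.Agent.H378.RS.kb_red hO hX hXY.wreath α
  have hmain : (∀ ε : ℝ, 0 < ε → ∀ x₀ : ℝ, ∃ x : ℝ, x₀ ≤ x ∧
      ForAll p O X Y (fun g k d => n₀ ≤ g → (g : ℝ) ≤ x → (k : ℤ) ≡ r [ZMOD (q ^ a : ℕ)] →
        (k : ℝ) ≤ x ^ ε * (d : ℝ) ^ α)) → Bound p O X Y α := by
    intro h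
    rw [bound_iff, hred]
    refine Pool.Agent.H378.RS.kb_res hO hC hq hqp a n₀ r α fun ε hε x₀ => ?_
    obtain ⟨x, hx, H⟩ := h ε hε x₀
    rw [forAll_iff] at H
    refine ⟨x, hx, fun G _ _ D B hB hD hG h1 h2 h3 => ?_⟩
    exact H G D B hB hD hG h1 h2 (modEq_iff.2 h3)
  have hall : Bound p O X Y α → ForAll p O X Y (fun _ k d => (k : ℝ) ≤ (d : ℝ) ^ α) := by
    intro h
    rw [bound_iff, hred] at h
    exact forAll_iff.2 h
  refine ⟨⟨fun h ε hε x₀ => ⟨max x₀ 1, le_max_left _ _, ?_⟩, hmain⟩, ⟨fun h => ?_,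
    fun h => hmain fun ε hε x₀ => ⟨max x₀ 1, le_max_left _ _, ?_⟩⟩, fun h => ?_, ?_⟩
  · intro G _ _ hG B D h1 h2 h3 h4 _ _ _
    have h6 := hall h G hG B D h1 h2 h3 h4
    have h7 : (1 : ℝ) ≤ (max x₀ 1) ^ ε := Real.one_le_rpow (le_max_right _ _) hε.le
    have h8 : (0 : ℝ) ≤ (Nat.card D : ℝ) ^ α := Real.rpow_nonneg (Nat.cast_nonneg _) _
    nlinarith
  · intro G _ _ hG B D h1 h2 h3 h4 _ _
    exact hall h G hG B D h1 h2 h3 h4
  · intro G _ _ hG B D h1 h2 h3 h4 h5 _ h6
    have h6 := h G hG B D h1 h2 h3 h4 h5 h6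
    have h7 : (1 : ℝ) ≤ (max x₀ 1) ^ ε := Real.one_le_rpow (le_max_right _ _) hε.le
    have h8 : (0 : ℝ) ≤ (Nat.card D : ℝ) ^ α := Real.rpow_nonneg (Nat.cast_nonneg _) _
    nlinarith
  · rw [bound_iff, hred] at h
    obtain ⟨δ, hδ, x₀, H⟩ := Pool.Agent.H378.RS.kb_all hO hC hq hqp a n₀ α h
    refine ⟨δ, hδ, x₀, fun x hx s => ?_⟩
    obtain ⟨G, i1, i2, D, B, hB, hD, hG, h1, h2, h3, h4⟩ := H x hx s
    exact ⟨G, i1, inferInstance, B, D, hG.2.1 inferInstance, hB, hD, hG.2.2, gst' hG.1, h1, h2,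
      modEq_iff.2 h3, h4⟩
  · constructor
    · intro h G _ _ hG B D h1 h2 h3
      have h4 := h G hG B D h1 h2 h3
      rw [Real.rpow_one] at h4
      exact_mod_cast h4
    · intro h G _ _ hG B D h1 h2 h3
      rw [Real.rpow_one]
      exact_mod_cast h G hG B D h1 h2 h3

end Pool.Agent.Results.MP_a15589_al.OneResidueClass
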