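import Pool.Agent.H373.MN.W6

/-!
# Brauer's `k(B)` conjecture: primitive permutation groups with three normal subgroups suffice

Let `p` be a prime, and let `q > 7` be a prime with `p ∣ q + 1` (and `4 ∣ q + 1` if `p = 2`); there
are infinitely many such `q`. Let `X_n` be the permutational wreath product of `PSL(2, q)` and the
alternating group `A_n` in its action on the `n (n - 1)` ordered pairs of distinct points.

(1) For `n ≥ 5` the group `X_n` has exactly three normal subgroups `1 < M < X_n`, where
`M = PSL(2, q) ^ (n (n - 1))` (a group of order divisible by `p`, with trivial centraliser) and
`X_n / M = A_n`, and `X_n` is isomorphic to a primitive permutation group.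

(2) Let `k` be an algebraically closed field of characteristic `p`. For every block `B` of `kG`, `G`
any finite group, and all `n ≥ |G| ^ 2 + 3 |G|`, the group `X_n` has a block with a defect group
isomorphic to that of `B` and the same number `k(B)`.

(3) So the `k(B)` conjecture holds for all finite groups if and only if it holds for the `X_n`, `n` in
an infinite set, if and only if it holds for the finite primitive permutation groups which have
exactly three normal subgroups.

Idea of the proof. Every finite group `G` is the stabiliser in `A_n` of a set of ordered pairs. Two
linear characters of a Borel subgroup of `PSL(2, q)` of order prime to `p` define a linear character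
of a subgroup `V` of order prime to `p` of the base group; `G` normalises `V` and fixes the linear
character, and Mackey's condition holds outside `V G`, so that induction from `V G` to `X_n`
identifies the blocks of `G` with blocks of `X_n`: the block of `X_n` is a matrix ring over the block
of `G`.
-/

set_option autoImplicit false

open Pool.Agent.H373.BU Pool.Agent.H373.MN

theorem Pool.Agent.Results.MP_a15589_al.ThreeNormalSubgroups.result (p : ℕ) [Fact p.Prime] :
    (∀ N : ℕ, ∃ q, N < q ∧ Good p q) ∧
    ∀ q, Good p q →
      (∀ n, 5 ≤ n → ThreeNormal p q n (XP n q) ∧ IsPrimitiveGroup (XP n q)) ∧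
      ∀ (k : Type) [Field k] [IsAlgClosed k] [CharP k p],
        (∀ (P : Type) [Group P] (m : ℕ) (G : Type) [Group G] [Finite G], Att k P m G →
          ∀ n, Nat.card G ^ 2 + 3 * Nat.card G ≤ n → Att k P m (XP n q)) ∧
        (∀ S : Set ℕ, S.Infinite →
          ((∀ (G : Type) [Group G] [Finite G], KB k G) ↔ ∀ n ∈ S, KB k (XP n q))) ∧
        ((∀ (G : Type) [Group G] [Finite G], KB k G) ↔
          ∀ (X : Type) [Group X] [Finite X], PrimitiveThree X → KB k X) :=
  kB_three p
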